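import Pool.Agent.Q206.EC.Main

/-!
# Equitable 2-choosability of disjoint unions of stars is NP-hard
-/

set_option autoImplicit false

namespace Pool.Agent.Results.MP_5b98da_lc.NPHard

open Pool.Agent.NPC Pool.Agent.Q206.EC

/-- Is the disjoint union of the stars `K_{1,m}`, `m ∈ l`, equitably 2-choosable? This is `NP`-hard
(the numbers are written in binary), and it is `NP`-hard also if all numbers must be positive. -/
theorem result :
    NPHardP (fun l : List ℕ => EquitablyChoosable (Stars l) 2) ∧
    NPHardP (fun l : List ℕ => (∀ m ∈ l, 1 ≤ m) ∧ EquitablyChoosable (Stars l) 2) := by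
  refine ⟨main.toHardI.toNPHardP, ?_⟩
  have h : HardPr (fun _ : List ℕ => True)
      (fun l : List ℕ => (∀ m ∈ l, 1 ≤ m) ∧ EquitablyChoosable (Stars l) 2) := by
    intro L hL
    obtain ⟨g, hg, hgp, hgL⟩ := main L hL
    exact ⟨g, hg, fun _ => trivial, fun x => ⟨fun hx => ⟨hgp x, (hgL x).1 hx⟩,
      fun hx => (hgL x).2 hx.2⟩⟩
  exact h.toHardI.toNPHardP

end Pool.Agent.Results.MP_5b98da_lc.NPHard
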